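import Mathlib
import Pool.Agent.Lib.MP_af9f8b_co.Lower

set_option autoImplicit false

namespace Pool.Agent.Results.MP_af9f8b_co.ChromaticThetaLog

/-- The tangent graph of the closed discs with centres `a ∈ A` and radii `r a`: the vertex set is
`A`, and distinct `a`, `b` are adjacent exactly when `|a - b| = r a + r b` (external tangency). -/
def tangentGraph (A : Finset (EuclideanSpace ℝ (Fin 2))) (r : EuclideanSpace ℝ (Fin 2) → ℝ) :
    SimpleGraph A where
  Adj a b := a ≠ b ∧ dist (a : EuclideanSpace ℝ (Fin 2)) b = r a + r b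
  symm := ⟨fun _ _ h => ⟨h.1.symm, by rw [dist_comm, add_comm]; exact h.2⟩⟩
  loopless := ⟨fun _ h => h.1 rfl⟩

/-- The set of chromatic numbers of planar tangent graphs with exactly `n` vertices
(all radii positive, otherwise arbitrary). -/
def chromaticValues (n : ℕ) : Set ℕ :=
  {k | ∃ (A : Finset (EuclideanSpace ℝ (Fin 2))) (r : EuclideanSpace ℝ (Fin 2) → ℝ),
    A.card = n ∧ (∀ a ∈ A, 0 < r a) ∧ (tangentGraph A r).chromaticNumber = (k : ℕ∞)}

/-- The maximum chromatic number `χ(n)` of a planar tangent graph on `n` vertices has order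
exactly `log n`. -/
theorem result : ∃ c C : ℝ, 0 < c ∧ 0 < C ∧ ∀ n : ℕ, 2 ≤ n →
    ∃ χ : ℕ, IsGreatest (chromaticValues n) χ ∧
      c * Real.log n ≤ χ ∧ (χ : ℝ) ≤ C * Real.log n := by
  classical
  have hlog2 : 0 < Real.log 2 := Real.log_pos (by norm_num)
  refine ⟨1 / 4, 1568 / Real.log 2, by norm_num, by positivity, ?_⟩
  intro n hn
  -- upper bound for every element of the set
  have hup : ∀ k ∈ chromaticValues n, k ≤ 784 * (Nat.log 2 n + 1) := by
    rintro k ⟨A, r, hA, hr, hk⟩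
    obtain ⟨col, h1, h2⟩ := Pool.Agent.Lib.MP_af9f8b_co.upper A r hr (Nat.log 2 n + 1)
      (by rw [hA]; exact Nat.lt_pow_succ_log_self (by norm_num) n)
    have hc : (tangentGraph A r).Colorable (784 * (Nat.log 2 n + 1)) :=
      ⟨SimpleGraph.Coloring.mk (fun a => ⟨col a, h1 a a.2⟩) (fun {a b} hab hh =>
        h2 a a.2 b b.2 hab.2 (congrArg Fin.val hh))⟩
    have := hc.chromaticNumber_le
    rw [hk] at this
    exact_mod_cast this
  -- the shift graph example
  obtain ⟨A, r, hA, hr, hlow⟩ := Pool.Agent.Lib.MP_af9f8b_co.lower n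
  obtain ⟨k0, hk0⟩ : ∃ k0 : ℕ, (tangentGraph A r).chromaticNumber = (k0 : ℕ∞) := by
    have h := (tangentGraph A r).colorable_of_fintype.chromaticNumber_le
    exact ENat.ne_top_iff_exists.1 (ne_top_of_le_ne_top (ENat.natCast_ne_top _) h) |>.imp
      fun _ h => h.symm
  have hmem : k0 ∈ chromaticValues n := ⟨A, r, hA, hr, hk0⟩
  have hcol : (tangentGraph A r).Colorable k0 :=
    SimpleGraph.chromaticNumber_le_iff_colorable.1 hk0.le
  obtain ⟨col⟩ := hcol
  have hsqrt : Nat.sqrt n ≤ 2 ^ k0 := hlow k0 col (fun a b hab hd => col.valid ⟨hab, hd⟩)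
  have hk0pos : 1 ≤ k0 := by
    obtain ⟨a, ha⟩ := Finset.card_pos.1 (by omega : 0 < A.card)
    exact (col ⟨a, ha⟩).pos
  have hbdd : BddAbove (chromaticValues n) := ⟨_, hup⟩
  refine ⟨sSup (chromaticValues n), ⟨Nat.sSup_mem ⟨k0, hmem⟩ hbdd, fun k hk => le_csSup hbdd hk⟩,
    ?_, ?_⟩
  · have h1 : k0 ≤ sSup (chromaticValues n) := le_csSup hbdd hmem
    have h2 : n ≤ 2 ^ (4 * k0) := by
      have h3 : n < (Nat.sqrt n + 1) * (Nat.sqrt n + 1) := Nat.lt_succ_sqrt n
      have h4 : 1 ≤ 2 ^ k0 := Nat.one_le_two_pow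
      have h5 : Nat.sqrt n + 1 ≤ 2 ^ (2 * k0) := by
        have h6 : 2 ^ (k0 + 1) ≤ 2 ^ (2 * k0) := Nat.pow_le_pow_right (by norm_num) (by omega)
        rw [pow_succ] at h6
        omega
      have h7 : 2 ^ (4 * k0) = 2 ^ (2 * k0) * 2 ^ (2 * k0) := by rw [← pow_add]; congr 1; ring
      rw [h7]
      exact h3.le.trans (Nat.mul_le_mul h5 h5)
    have h8 : Real.log n ≤ (4 * k0 : ℕ) * Real.log 2 := by
      rw [← Real.log_pow]
      apply Real.log_le_log (by positivity)
      exact_mod_cast h2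
    have h9 : Real.log 2 ≤ 1 := by
      have := Real.log_le_sub_one_of_pos (by norm_num : (0 : ℝ) < 2)
      linarith
    have h10 : (k0 : ℝ) ≤ (sSup (chromaticValues n) : ℕ) := by exact_mod_cast h1
    have h11 : (0 : ℝ) ≤ k0 := Nat.cast_nonneg _
    push_cast at h8
    nlinarith
  · have h1 := hup _ (Nat.sSup_mem ⟨k0, hmem⟩ hbdd)
    have h2 : ((sSup (chromaticValues n) : ℕ) : ℝ) ≤ 784 * ((Nat.log 2 n : ℝ) + 1) := by
      exact_mod_cast h1
    have h3 : (Nat.log 2 n : ℝ) * Real.log 2 ≤ Real.log n := by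
      rw [← Real.log_pow]
      apply Real.log_le_log (by positivity)
      exact_mod_cast Nat.pow_log_le_self 2 (by omega : n ≠ 0)
    have h4 : Real.log 2 ≤ Real.log n := Real.log_le_log (by norm_num) (by exact_mod_cast hn)
    rw [div_mul_eq_mul_div, le_div_iff₀ hlog2]
    nlinarith

end Pool.Agent.Results.MP_af9f8b_co.ChromaticThetaLog
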